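import Mathlib
import Pool.Agent.Q285.AC.Main

/-!
# The cost of affine signed permutations of type `B`

The cost of an element of the affine Weyl group of type `B` (in its combinatorial model by
affine signed permutations) is half of the total displacement plus the number of the good places
which are not very good.
-/

namespace Pool.Agent.Results.MP_0e82d3_co.CostFormula

open Equiv

/-- `w` is an affine signed permutation, that is, `w (-i) = -w i` and
`w (i + N) = w i + N` with `N = 2 * n + 2`. -/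
def IsAffineSigned (n : ℕ) (w : Perm ℤ) : Prop :=
  (∀ i, w (-i) = -w i) ∧ ∀ i, w (i + (2 * n + 2)) = w i + (2 * n + 2)

/-- The group of type `B`: the affine signed permutations for which the number of positive
integers with a negative image is even (`finite_negatives` shows that this number is finite). -/
def InB (n : ℕ) (w : Perm ℤ) : Prop :=
  IsAffineSigned n w ∧ Even {i : ℤ | 0 < i ∧ w i < 0}.ncard

/-- The total displacement. -/
noncomputable def tvd (n : ℕ) (w : Perm ℤ) : ℤ := ∑ i ∈ Finset.Icc (1 : ℤ) n, |w i - i|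

/-- `t` exchanges `σ i` and `σ j` for every map `σ` of the form `x ↦ ± x + k * (2 * n + 2)`, and
fixes every other integer. -/
def IsTransposition (n : ℕ) (i j : ℤ) (t : Perm ℤ) : Prop :=
  (∀ k : ℤ, t (i + k * (2 * n + 2)) = j + k * (2 * n + 2) ∧
    t (j + k * (2 * n + 2)) = i + k * (2 * n + 2) ∧
    t (-i + k * (2 * n + 2)) = -j + k * (2 * n + 2) ∧
    t (-j + k * (2 * n + 2)) = -i + k * (2 * n + 2)) ∧
  ∀ x, (∀ k : ℤ, x ≠ i + k * (2 * n + 2) ∧ x ≠ j + k * (2 * n + 2) ∧
    x ≠ -i + k * (2 * n + 2) ∧ x ≠ -j + k * (2 * n + 2)) → t x = x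

/-- The reflections of the group of type `B`: its elements which are transpositions. -/
def IsReflection (n : ℕ) (t : Perm ℤ) : Prop :=
  InB n t ∧ ∃ i j, i ≠ j ∧ IsTransposition n i j t

/-- The set of the total costs of the factorizations of `w` into reflections. -/
def costs (n : ℕ) (w : Perm ℤ) : Set ℚ :=
  {c | ∃ l : List (Perm ℤ), (∀ t ∈ l, IsReflection n t) ∧ l.prod = w ∧
    c = (l.map fun t => (tvd n t : ℚ) / 2).sum}

/-- The set `{±1, …, ±j}`. -/
def pm (j : ℕ) : Set ℤ := {x | x ≠ 0 ∧ |x| ≤ j}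

/-- `w` maps `{±1, …, ±j}` onto itself. -/
def IsGood (w : Perm ℤ) (j : ℕ) : Prop := w '' pm j = pm j

/-- `w` maps `{±1, …, ±j}` onto itself, and the number of negative values among
`w 1, …, w j` is even. -/
def IsVeryGood (w : Perm ℤ) (j : ℕ) : Prop :=
  IsGood w j ∧ Even {i : ℤ | 1 ≤ i ∧ i ≤ j ∧ w i < 0}.ncard

/-- The number of blocks of type `C`. -/
noncomputable def blC (n : ℕ) (w : Perm ℤ) : ℕ := 1 + {j : ℕ | 1 ≤ j ∧ j < n ∧ IsGood w j}.ncard

/-- The number of blocks of type `B`. -/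
noncomputable def blB (n : ℕ) (w : Perm ℤ) : ℕ :=
  1 + {j : ℕ | 1 ≤ j ∧ j < n ∧ IsVeryGood w j}.ncard

open Pool.Agent.Q285.AC in
lemma aff_of {n : ℕ} {w : Perm ℤ} (h : IsAffineSigned n w) : Aff (n : ℤ) w := ⟨h.1, h.2⟩

open Pool.Agent.Q285.AC in
lemma affineSigned_of {n : ℕ} {w : Perm ℤ} (h : Aff (n : ℤ) w) : IsAffineSigned n w :=
  ⟨h.neg, h.per⟩

/-- The number in the definition of `InB` is finite. -/
lemma finite_negatives (n : ℕ) (hn : 1 ≤ n) (w : Perm ℤ) (h : IsAffineSigned n w) :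
    {i : ℤ | 0 < i ∧ w i < 0}.Finite := by
  have h' := aff_of h
  have hn' : (1 : ℤ) ≤ n := by exact_mod_cast hn
  have h0 : 0 ≤ tvd n w := Finset.sum_nonneg fun _ _ => abs_nonneg _
  have hsum : ∀ i : ℤ, 1 ≤ i → i ≤ n → |w i - i| ≤ tvd n w := fun i h1 h2 =>
    Finset.single_le_sum (f := fun i : ℤ => |w i - i|) (fun _ _ => abs_nonneg _)
      (Finset.mem_Icc.2 ⟨h1, h2⟩)
  have key : ∀ x, |w x - x| ≤ tvd n w := by
    intro x
    rcases Pool.Agent.Q285.AC.rep hn' x with ⟨k, rfl⟩ | ⟨i, k, h1, h2, rfl | rfl⟩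
    · rw [h'.mid]
      simpa using h0
    · rw [h'.per', add_sub_add_right_eq_sub]
      exact hsum i h1 h2
    · rw [h'.per', h'.neg, add_sub_add_right_eq_sub, ← abs_neg]
      have : -(-w i - -i) = w i - i := by ring
      rw [this]
      exact hsum i h1 h2
  apply (Set.finite_Icc (1 : ℤ) (tvd n w)).subset
  rintro x ⟨h1, h2⟩
  have h3 := key x
  rw [abs_le] at h3
  exact ⟨h1, by omega⟩

open Pool.Agent.Q285.AC in
lemma inB_iff {n : ℕ} (hn : 1 ≤ n) {w : Perm ℤ} :
    InB n w ↔ Aff (n : ℤ) w ∧ par n w = 0 := by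
  have hn' : (1 : ℤ) ≤ n := by exact_mod_cast hn
  constructor
  · rintro ⟨h1, h2⟩
    exact ⟨aff_of h1, ((aff_of h1).even_iff hn').1 h2⟩
  · rintro ⟨h1, h2⟩
    exact ⟨affineSigned_of h1, (h1.even_iff hn').2 h2⟩

open Pool.Agent.Q285.AC in
lemma good_iff {n : ℕ} {w : Perm ℤ} (h : Aff (n : ℤ) w) (j : ℕ) :
    IsGood w j ↔ Good w (j : ℤ) := by
  constructor
  · intro hg i hi
    rw [Finset.mem_Icc] at hi
    have h1 : w i ∈ pm j := by
      rw [← hg]
      refine ⟨i, ⟨by omega, ?_⟩, rfl⟩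
      rw [abs_of_pos (by omega)]
      exact hi.2
    exact h1.2
  · intro hg
    have hfin : (pm j).Finite := (Set.finite_Icc (-(j : ℤ)) j).subset fun x hx => abs_le.1 hx.2
    apply Set.eq_of_subset_of_ncard_le _ _ hfin
    · rintro _ ⟨x, ⟨hx0, hxj⟩, rfl⟩
      rw [abs_le] at hxj
      have hw0 : w 0 = 0 := by
        have := h.neg 0
        rw [neg_zero] at this
        omega
      refine ⟨fun h0 => hx0 (w.injective (h0.trans hw0.symm)), ?_⟩
      rcases lt_or_gt_of_ne hx0 with h1 | h1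
      · have h2 := hg (-x) (Finset.mem_Icc.2 ⟨by omega, by omega⟩)
        rwa [h.neg, abs_neg] at h2
      · exact hg x (Finset.mem_Icc.2 ⟨by omega, by omega⟩)
    · rw [Set.ncard_image_of_injective _ w.injective]

open Pool.Agent.Q285.AC in
lemma even_iff_sg (w : Perm ℤ) (j : ℕ) :
    ¬ Even {i : ℤ | 1 ≤ i ∧ i ≤ j ∧ w i < 0}.ncard ↔ sg w (j : ℤ) = 1 := by
  have h1 : {i : ℤ | 1 ≤ i ∧ i ≤ j ∧ w i < 0} =
      ((Finset.Icc (1 : ℤ) j).filter (fun i => w i < 0) : Finset ℤ) := by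
    ext i
    simp [and_assoc]
  rw [h1, Set.ncard_coe_finset, Nat.not_even_iff_odd, ← ZMod.natCast_eq_one_iff_odd]
  unfold sg
  rw [Finset.sum_boole]

open Pool.Agent.Q285.AC in
lemma bl_eq {n : ℕ} {w : Perm ℤ} (h : Aff (n : ℤ) w) :
    blC n w = blB n w + (GS (n : ℤ) w).card := by
  have hA : {j : ℕ | 1 ≤ j ∧ j < n ∧ IsGood w j} = {j : ℕ | 1 ≤ j ∧ j < n ∧ IsVeryGood w j} ∪
      {j : ℕ | 1 ≤ j ∧ j < n ∧ OG w (j : ℤ)} := by
    ext j
    simp only [Set.mem_ofPred_eq, Set.mem_union, IsVeryGood, OG, ← even_iff_sg, ← good_iff h]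
    tauto
  have hfin : ∀ P : ℕ → Prop, {j : ℕ | 1 ≤ j ∧ j < n ∧ P j}.Finite := fun P =>
    (Set.finite_lt_nat n).subset fun j hj => hj.2.1
  have hd : Disjoint {j : ℕ | 1 ≤ j ∧ j < n ∧ IsVeryGood w j}
      {j : ℕ | 1 ≤ j ∧ j < n ∧ OG w (j : ℤ)} := by
    rw [Set.disjoint_left]
    rintro j ⟨-, -, h1, h2⟩ ⟨-, -, h3⟩
    exact (even_iff_sg w j).2 h3.2 h2
  have hB : ((GS (n : ℤ) w : Finset ℤ) : Set ℤ) =
      (fun j : ℕ => (j : ℤ)) '' {j : ℕ | 1 ≤ j ∧ j < n ∧ OG w (j : ℤ)} := by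
    ext x
    simp only [Finset.mem_coe, mem_GS, Set.mem_image, Set.mem_ofPred_eq]
    constructor
    · rintro ⟨⟨h1, h2⟩, h3⟩
      lift x to ℕ using by omega
      exact ⟨x, ⟨by omega, by omega, h3⟩, rfl⟩
    · rintro ⟨j, ⟨h1, h2, h3⟩, rfl⟩
      exact ⟨⟨by omega, by omega⟩, h3⟩
  unfold blC blB
  rw [hA, Set.ncard_union_eq hd (hfin _) (hfin _), ← Set.ncard_coe_finset, hB,
    Set.ncard_image_of_injective _ Nat.cast_injective]
  omega

open Pool.Agent.Q285.AC in
lemma gs_one {n : ℤ} (w : ℤ → ℤ) (hw : w = fun x => x) : GS n w = ∅ := by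
  rw [Finset.eq_empty_iff_forall_notMem]
  intro j hj
  obtain ⟨⟨h1, -⟩, -, h2⟩ := mem_GS.1 hj
  have h3 : sg w j = 0 := by
    unfold sg
    apply Finset.sum_eq_zero
    intro x hx
    rw [Finset.mem_Icc] at hx
    rw [if_neg (by rw [hw]; simp only; omega)]
  rw [h3] at h2
  exact absurd h2 (by decide)

open Pool.Agent.Q285.AC in
lemma lower_list {n : ℕ} (hn : 1 ≤ n) (l : List (Perm ℤ)) (hl : ∀ t ∈ l, IsReflection n t) :
    Aff (n : ℤ) l.prod ∧ Results.MP_0e82d3_co.CostFormula.tvd n l.prod + 2 * (GS (n : ℤ) l.prod).card ≤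
      (l.map fun t => Results.MP_0e82d3_co.CostFormula.tvd n t).sum := by
  have hn' : (1 : ℤ) ≤ n := by exact_mod_cast hn
  induction l using List.reverseRecOn with
  | nil =>
    refine ⟨by simpa using Aff.one (n : ℤ), ?_⟩
    have h1 : ((([] : List (Perm ℤ)).prod : Perm ℤ) : ℤ → ℤ) = fun x => x := by
      funext x
      simp
    have h2 : Results.MP_0e82d3_co.CostFormula.tvd n (([] : List (Perm ℤ)).prod : Perm ℤ) = 0 := by
      unfold Results.MP_0e82d3_co.CostFormula.tvd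
      rw [h1]
      simp
    rw [h2, gs_one _ h1]
    simp
  | append_singleton l t ih =>
    obtain ⟨h1, h2⟩ := ih fun s hs => hl s (by simp [hs])
    obtain ⟨h3, i, j, hij, hT⟩ := hl t (by simp)
    obtain ⟨h4, h5⟩ := (inB_iff hn).1 h3
    have h6 := lower hn' h1 h4 h5 hij hT
    rw [List.prod_append, List.prod_singleton, List.map_append, List.sum_append]
    simp only [List.map_cons, List.map_nil, List.sum_cons, List.sum_nil, add_zero]
    refine ⟨h1.mul h4, ?_⟩
    have e1 : ∀ u : Perm ℤ, Pool.Agent.Q285.AC.tvd (n : ℤ) u = Results.MP_0e82d3_co.CostFormula.tvd n u := fun _ => rfl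
    rw [e1, e1, e1] at h6
    linarith

open Pool.Agent.Q285.AC in
lemma upper_list {n : ℕ} (hn : 1 ≤ n) (m : ℕ) : ∀ w : Perm ℤ, Aff (n : ℤ) w → par (n : ℤ) w = 0 →
    Results.MP_0e82d3_co.CostFormula.tvd n w + 2 * (GS (n : ℤ) w).card ≤ m →
    ∃ l : List (Perm ℤ), (∀ t ∈ l, IsReflection n t) ∧ l.prod = w ∧
      (l.map fun t => Results.MP_0e82d3_co.CostFormula.tvd n t).sum =
        Results.MP_0e82d3_co.CostFormula.tvd n w + 2 * (GS (n : ℤ) w).card := by
  have hn' : (1 : ℤ) ≤ n := by exact_mod_cast hn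
  induction m using Nat.strong_induction_on with
  | _ m ih =>
    intro w hw hpar hm
    by_cases h1 : w = 1
    · subst h1
      refine ⟨[], by simp, by simp, ?_⟩
      have h1 : ((1 : Perm ℤ) : ℤ → ℤ) = fun x => x := by
        funext x
        simp
      have h2 : Results.MP_0e82d3_co.CostFormula.tvd n (1 : Perm ℤ) = 0 := by
        unfold Results.MP_0e82d3_co.CostFormula.tvd
        simp
      rw [h2, gs_one _ h1]
      simp
    · obtain ⟨a, b, H, hab, hp1, hp2, hpos, heq⟩ := step hn' hw hpar h1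
      have e1 : ∀ u : Perm ℤ, Pool.Agent.Q285.AC.tvd (n : ℤ) u = Results.MP_0e82d3_co.CostFormula.tvd n u :=
        fun _ => rfl
      rw [e1] at hpos
      rw [e1, e1, e1] at heq
      have h0 : 0 ≤ Results.MP_0e82d3_co.CostFormula.tvd n (w * swp H) := Finset.sum_nonneg fun _ _ => abs_nonneg _
      have hT : IsReflection n (swp H) :=
        ⟨(inB_iff hn).2 ⟨aff_swp H, hp1⟩, a, b, hab, isTransposition_swp H⟩
      obtain ⟨l, hl1, hl2, hl3⟩ := ih
        (Results.MP_0e82d3_co.CostFormula.tvd n (w * swp H) + 2 * (GS (n : ℤ) (w * swp H : Perm ℤ)).card).toNat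
        (by omega) (w * swp H) (hw.mul (aff_swp H)) hp2 (by omega)
      refine ⟨l ++ [swp H], ?_, ?_, ?_⟩
      · intro t ht
        rcases List.mem_append.1 ht with h2 | h2
        · exact hl1 t h2
        · rw [List.mem_singleton.1 h2]
          exact hT
      · rw [List.prod_append, List.prod_singleton, hl2, mul_assoc, swp_mul_self, mul_one]
      · rw [List.map_append, List.sum_append, hl3]
        simp only [List.map_cons, List.map_nil, List.sum_cons, List.sum_nil, add_zero]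
        linarith

lemma sum_half (n : ℕ) (l : List (Perm ℤ)) : (l.map fun t => (tvd n t : ℚ) / 2).sum =
    (((l.map fun t => tvd n t).sum : ℤ) : ℚ) / 2 := by
  induction l with
  | nil => simp
  | cons t l ih =>
    simp only [List.map_cons, List.sum_cons, Int.cast_add, add_div, ih]

/-- **The cost formula for affine signed permutations of type `B`**: for every `n ≥ 1` and every
`w` in the group of type `B`, the least cost of a factorization of `w` into reflections exists
and equals `tvd(w) / 2 + blC(w) - blB(w)`. -/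
theorem result (n : ℕ) (hn : 1 ≤ n) (w : Perm ℤ) (hw : InB n w) :
    IsLeast (costs n w) ((tvd n w : ℚ) / 2 + blC n w - blB n w) := by
  obtain ⟨h1, h2⟩ := (inB_iff hn).1 hw
  have h3 : (blC n w : ℚ) = blB n w + (Pool.Agent.Q285.AC.GS (n : ℤ) w).card := by
    exact_mod_cast bl_eq h1
  constructor
  · obtain ⟨l, hl1, hl2, hl3⟩ := upper_list hn
      (tvd n w + 2 * (Pool.Agent.Q285.AC.GS (n : ℤ) w).card).toNat w h1 h2 (by omega)
    refine ⟨l, hl1, hl2, ?_⟩
    rw [sum_half, hl3, h3]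
    push_cast
    ring
  · rintro c ⟨l, hl1, hl2, rfl⟩
    obtain ⟨-, h4⟩ := lower_list hn l hl1
    rw [hl2] at h4
    rw [sum_half, h3]
    have h5 : ((tvd n w + 2 * (Pool.Agent.Q285.AC.GS (n : ℤ) w).card : ℤ) : ℚ) ≤
        (((l.map fun t => tvd n t).sum : ℤ) : ℚ) := by exact_mod_cast h4
    push_cast at h5 ⊢
    linarith

end Pool.Agent.Results.MP_0e82d3_co.CostFormula
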